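import Pool.Agent.helper24.Welsh.MainT
import Pool.Agent.helper39.Welsh.TL
import Pool.Agent.helper24.Welsh2.TR
import Pool.Agent.helper24.Welsh2.Cm

/-!
# Welsh's conjecture: spanning circuits in regular matroids with large cocircuits

Let `M` be a finite matroid which is representable over the field with two elements and over a field in which `2 ≠ 0` (so every regular
matroid is such a matroid: a regular matroid is representable over every field). If `M` is simple and connected, `r = r(M) ≥ 2`, and every
cocircuit of `M` has at least `(r + 1) / 2` elements, then `M` has a circuit with `r + 1` elements.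

Proof. Work with the finite set `G` of the vectors of `M` over the field with two elements. The second representation is used only to
exclude the Fano matroid and its dual as restrictions of contractions of `M`. Let `C` be a longest circuit and suppose `|C| ≤ r`. Induction
on the rank: go up from the closure of `C` through components of contractions; at the top there are a cocircuit `D` of such a component and
an independent set `B` such that `D` is independent and `D` is parallel to one element modulo `B`; the absence of the Fano configurations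
shows that the elements of `D` cut the circuits below cyclically (as the end vertex of a longest path in Dirac's proof), and a count of the arcs
gives `2 |D| ≤ r`.
-/

set_option autoImplicit false

namespace Pool.Agent.Results.MP_1cfd26_co.SpanningCircuits

open Pool.Agent.helper24.Welsh Pool.Agent.helper24.Welsh2

universe u v

/-- `M` is the matroid of the columns of a matrix over the field `K` with finitely many rows (`x e` is the column of the element `e`) -/
def Representable {α : Type u} (M : Matroid α) (K : Type v) [Field K] : Prop :=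
  ∃ (n : ℕ) (x : α → Fin n → K), ∀ I ⊆ M.E, M.Indep I ↔ LinearIndepOn K x I

/-- `M` is simple: no circuit has one or two elements -/
def IsSimple {α : Type u} (M : Matroid α) : Prop := ∀ C, M.IsCircuit C → 3 ≤ C.encard

/-- `M` is connected: every two elements lie in a common circuit -/
def IsConnected {α : Type u} (M : Matroid α) : Prop :=
  ∀ e ∈ M.E, ∀ f ∈ M.E, e ≠ f → ∃ C, M.IsCircuit C ∧ e ∈ C ∧ f ∈ C

theorem result {α : Type u} (M : Matroid α) [M.Finite] (h2 : Representable M (ZMod 2)) {K : Type v} [Field K]
    (hK2 : (2 : K) ≠ 0) (hK : Representable M K) (hs : IsSimple M) (hc : IsConnected M) (hr : 2 ≤ M.eRank)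
    (hD : ∀ D, M.IsCocircuit D → M.eRank + 1 ≤ 2 * D.encard) :
    ∃ C, M.IsCircuit C ∧ C.encard = M.eRank + 1 := by
  obtain ⟨k, f, hf, hfr⟩ := M.ground_finite.fin_param
  obtain ⟨n, x, hx⟩ := h2
  obtain ⟨m, w, hw⟩ := hK
  have : Fact (Nat.Prime 2) := ⟨Nat.prime_two⟩
  have hsub : ∀ I : Set (Fin k), f '' I ⊆ M.E := fun I => by rw [← hfr]; exact Set.image_subset_range f I
  have hE : (M.comap f).E = Set.univ := cm_ground hfr
  -- the two representations
  have hv : ∀ I : Set (Fin k), (M.comap f).Indep I ↔
      (I ⊆ (M.comap f).E ∧ LinearIndependent (ZMod 2) (fun y : I => (x ∘ f) y)) := by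
    intro I
    rw [cm_indep hf, hx _ (hsub I), cm_rep hf, hE]
    exact ⟨fun h => ⟨Set.subset_univ _, h⟩, fun h => h.2⟩
  have hvw : ∀ I : Set (Fin k), I ⊆ Set.univ → (LinearIndepOn (ZMod 2) (x ∘ f) I ↔ LinearIndepOn K (w ∘ f) I) := by
    intro I _
    rw [← cm_rep hf, ← cm_rep hf, ← hx _ (hsub I), ← hw _ (hsub I)]
  -- the base
  obtain ⟨B, hB⟩ := (M.comap f).exists_isBase
  have hB' : M.IsBase (f '' B) := (cm_base hf hfr B).1 hB
  have hcard : ∀ S : Set (Fin k), (f '' S).encard = (S.ncard : ℕ∞) := fun S => by
    rw [hf.encard_image, Set.Finite.cast_ncard_eq (Set.toFinite S)]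
  have hrank : M.eRank = (B.ncard : ℕ∞) := by rw [← hB'.encard_eq_eRank, hcard]
  -- simple
  have hsimple : ∀ e ∈ (M.comap f).E, ∀ e' ∈ (M.comap f).E, (M.comap f).Indep {e, e'} := by
    intro e _ e' _
    rw [cm_indep hf]
    by_contra hcon
    rw [Matroid.not_indep_iff (hsub _)] at hcon
    obtain ⟨C, hC1, hC2⟩ := hcon.exists_isCircuit_subset
    have h3 := hs C hC2
    have h4 : C.encard ≤ 2 := by
      refine (Set.encard_le_encard hC1).trans ?_
      rw [Set.image_pair]
      refine (Set.encard_insert_le _ _).trans ?_
      rw [Set.encard_singleton, one_add_one_eq_two]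
    have h5 : (3 : ℕ∞) ≤ 2 := h3.trans h4
    exact absurd h5 (by decide)
  have hconn : ∀ e ∈ (M.comap f).E, ∀ e' ∈ (M.comap f).E, e ≠ e' →
      ∃ C, (M.comap f).IsCircuit C ∧ e ∈ C ∧ e' ∈ C := by
    intro e _ e' _ hee
    have hfe : ∀ i, f i ∈ M.E := fun i => by rw [← hfr]; exact ⟨i, rfl⟩
    obtain ⟨C, hC, h3, h4⟩ := hc _ (hfe e) _ (hfe e') (hf.ne hee)
    have hCr : C ⊆ Set.range f := by rw [hfr]; exact hC.subset_ground
    refine ⟨f ⁻¹' C, ?_, h3, h4⟩
    rw [cm_circ hf hfr, Set.image_preimage_eq_of_subset hCr]
    exact hC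
  have hnt : (M.comap f).E.Nontrivial := by
    have h3 : 1 < B.encard := by
      rw [← Set.Finite.cast_ncard_eq (Set.toFinite B), ← hrank]
      exact lt_of_lt_of_le (by decide) hr
    exact (Set.one_lt_encard_iff_nontrivial.1 h3).mono hB.subset_ground
  have hcoc : ∀ D, (M.comap f).IsCocircuit D → B.ncard + 1 ≤ 2 * D.ncard := by
    intro D hD'
    have h3 := hD _ ((cm_cocirc hf hfr D).1 hD')
    rw [hrank, hcard] at h3
    exact_mod_cast h3
  have main : ∃ C, (M.comap f).IsCircuit C ∧ C.ncard = B.ncard + 1 := by
    refine translate (M.comap f) (x ∘ f) hv hsimple hconn hnt B hB hcoc ?_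
    intro G hG1 hG2 h1 h2 h3 h4 h5 h6
    have hreg := Pool.Agent.helper24.Welsh2.reg_of_two_reps hK2 Set.univ (x ∘ f) (w ∘ f) hvw G
      (fun g hg => by
        obtain ⟨a, -, ha⟩ := hG1 g hg
        exact ⟨a, Set.mem_univ _, ha⟩)
    refine mainT B.ncard ⊥ G h1 h2 h3 hreg ?_ h5 ?_
    · rw [h4]; simp
    · intro H _ hH; exact h6 H hH
  obtain ⟨C, hC, hCc⟩ := main
  refine ⟨f '' C, (cm_circ hf hfr C).1 hC, ?_⟩
  rw [hcard, hCc, hrank]
  push_cast
  rfl

end Pool.Agent.Results.MP_1cfd26_co.SpanningCircuits
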